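import Mathlib

open MeasureTheory Set Filter

namespace Q176.TW

/-- Euclidean space of dimension `d`. -/
abbrev E (d : ℕ) := EuclideanSpace ℝ (Fin d)

variable {d : ℕ}

/-- standard basis vector -/
noncomputable def bv (i : Fin d) : E d := EuclideanSpace.single i (1 : ℝ)

/-- divergence of a vector field -/
noncomputable def dv (ψ : E d → E d) (x : E d) : ℝ := ∑ i, (fderiv ℝ ψ x (bv i)) i

/-- Laplacian of a vector field -/
noncomputable def lapl (ψ : E d → E d) (x : E d) : E d :=
  ∑ i, fderiv ℝ (fun y => fderiv ℝ ψ y (bv i)) x (bv i)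

/-- smooth divergence-free test fields with compact support in `ω` -/
structure IsTest (ω : Set (E d)) (ψ : E d → E d) : Prop where
  smooth : ContDiff ℝ (⊤ : ℕ∞) ψ
  compact : HasCompactSupport ψ
  supp : tsupport ψ ⊆ ω
  divfree : ∀ x, dv ψ x = 0

/-- space-time measure on `(0, T] × ω` -/
noncomputable def stm (T : ℝ) (ω : Set (E d)) : Measure (ℝ × E d) :=
  (volume.restrict (Ioc 0 T)).prod (volume.restrict ω)

/-- `u` is a weak solution of the Navier-Stokes equations (unit viscosity) in `(0, T) × ω`, weakly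
continuous in time: the equations are tested with the fields `ψ(x)`, from time `0` to time `T`. -/
structure IsWeakNS (T : ℝ) (ω : Set (E d)) (u : ℝ → E d → E d) : Prop where
  meas : AEStronglyMeasurable (fun z : ℝ × E d => u z.1 z.2) (stm T ω)
  sq : Integrable (fun z : ℝ × E d => ‖u z.1 z.2‖ ^ 2) (stm T ω)
  weak : ∀ ψ, IsTest ω ψ →
    (∫ x in ω, inner ℝ (u T x) (ψ x)) - ∫ x in ω, inner ℝ (u 0 x) (ψ x)
      = ∫ z, (inner ℝ (u z.1 z.2) (fderiv ℝ ψ z.2 (u z.1 z.2))
          + inner ℝ (u z.1 z.2) (lapl ψ z.2)) ∂(stm T ω)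

end Q176.TW
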