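import Mathlib
import Pool.Agent.Q176.TW.Def

open MeasureTheory Set Filter

namespace Q176.TW

variable {d : ℕ}

theorem lapl_cont {ω : Set (E d)} {ψ : E d → E d} (h : IsTest ω ψ) : Continuous (lapl ψ) := by
  unfold lapl
  refine continuous_finsetSum _ fun i _ => ?_
  have h1 : ContDiff ℝ 1 (fun y => fderiv ℝ ψ y (bv i)) :=
    ((contDiff_infty.1 h.smooth 2).fderiv_right (m := 1) (by norm_num)).clm_apply contDiff_const
  exact (h1.continuous_fderiv (by norm_num)).clm_apply continuous_const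

theorem lapl_zero {ω : Set (E d)} {ψ : E d → E d} (_ : IsTest ω ψ) (x : E d)
    (hx : x ∉ tsupport ψ) : lapl ψ x = 0 := by
  have h1 : ψ =ᶠ[nhds x] 0 := notMem_tsupport_iff_eventuallyEq.1 hx
  have h2 : ∀ i : Fin d, (fun y => fderiv ℝ ψ y (bv i)) =ᶠ[nhds x] fun _ => 0 := by
    intro i
    have h3 := h1.fderiv (𝕜 := ℝ)
    filter_upwards [h3] with y hy
    rw [hy]
    simp
  unfold lapl
  apply Finset.sum_eq_zero
  intro i _
  rw [(h2 i).fderiv_eq]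
  simp

theorem lapl_int {ω : Set (E d)} {ψ : E d → E d} (h : IsTest ω ψ) :
    Integrable (fun x => ‖lapl ψ x‖ ^ 2) (volume.restrict ω) := by
  have h1 : Continuous (fun x => ‖lapl ψ x‖ ^ 2) := (lapl_cont h).norm.pow 2
  have h2 : HasCompactSupport (fun x => ‖lapl ψ x‖ ^ 2) := by
    refine HasCompactSupport.intro h.compact fun x hx => ?_
    rw [lapl_zero h x hx]
    simp
  exact (h1.integrable_of_hasCompactSupport h2).restrict

/-- the basic inequality, with a free parameter -/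
theorem young {T : ℝ} {ω : Set (E d)} {u : ℝ → E d → E d} (hT : 0 < T) (hu : IsWeakNS T ω u)
    {ψ : E d → E d} (hψ : IsTest ω ψ) {G L : ℝ} (hG : ∀ x, ‖fderiv ℝ ψ x‖ ≤ G)
    (hi : Integrable (fun x => ‖lapl ψ x‖ ^ 2) (volume.restrict ω))
    (hL : ∫ x in ω, ‖lapl ψ x‖ ^ 2 ≤ L ^ 2) (l : ℝ) (hl : 0 < l) :
    |(∫ x in ω, inner ℝ (u T x) (ψ x)) - ∫ x in ω, inner ℝ (u 0 x) (ψ x)|
      ≤ (G + l / 2) * (∫ z, ‖u z.1 z.2‖ ^ 2 ∂(stm T ω)) + T * L ^ 2 / (2 * l) := by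
  rw [hu.weak ψ hψ]
  have hi2 : Integrable (fun z : ℝ × E d => ‖lapl ψ z.2‖ ^ 2) (stm T ω) := by
    exact Integrable.comp_snd hi (volume.restrict (Ioc 0 T))
  have e2 : ∫ z, ‖lapl ψ z.2‖ ^ 2 ∂(stm T ω) = T * ∫ x in ω, ‖lapl ψ x‖ ^ 2 := by
    unfold stm
    rw [integral_prod _ hi2]
    simp only [integral_const, smul_eq_mul, Measure.real, Measure.restrict_apply_univ, Real.volume_Ioc]
    rw [sub_zero, ENNReal.toReal_ofReal hT.le]
  have hb : ∀ z : ℝ × E d, ‖inner ℝ (u z.1 z.2) (fderiv ℝ ψ z.2 (u z.1 z.2))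
          + inner ℝ (u z.1 z.2) (lapl ψ z.2)‖
      ≤ (G + l / 2) * ‖u z.1 z.2‖ ^ 2 + (1 / (2 * l)) * ‖lapl ψ z.2‖ ^ 2 := by
    intro z
    have h1 : |inner ℝ (u z.1 z.2) (fderiv ℝ ψ z.2 (u z.1 z.2))| ≤ G * ‖u z.1 z.2‖ ^ 2 := by
      calc |inner ℝ (u z.1 z.2) (fderiv ℝ ψ z.2 (u z.1 z.2))|
          ≤ ‖u z.1 z.2‖ * ‖fderiv ℝ ψ z.2 (u z.1 z.2)‖ := abs_real_inner_le_norm _ _
        _ ≤ ‖u z.1 z.2‖ * (G * ‖u z.1 z.2‖) := by
            apply mul_le_mul_of_nonneg_left _ (norm_nonneg _)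
            exact (ContinuousLinearMap.le_opNorm _ _).trans
              (mul_le_mul_of_nonneg_right (hG _) (norm_nonneg _))
        _ = G * ‖u z.1 z.2‖ ^ 2 := by ring
    have h2 : |inner ℝ (u z.1 z.2) (lapl ψ z.2)|
        ≤ l / 2 * ‖u z.1 z.2‖ ^ 2 + (1 / (2 * l)) * ‖lapl ψ z.2‖ ^ 2 := by
      refine (abs_real_inner_le_norm _ _).trans ?_
      have h3 : 0 ≤ (l * ‖u z.1 z.2‖ - ‖lapl ψ z.2‖) ^ 2 / (2 * l) := by positivity
      have h4 : (l * ‖u z.1 z.2‖ - ‖lapl ψ z.2‖) ^ 2 / (2 * l)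
          = l / 2 * ‖u z.1 z.2‖ ^ 2 + (1 / (2 * l)) * ‖lapl ψ z.2‖ ^ 2
            - ‖u z.1 z.2‖ * ‖lapl ψ z.2‖ := by
        field_simp
        ring
      linarith
    rw [Real.norm_eq_abs]
    refine (abs_add_le _ _).trans ?_
    linarith
  have hbi : Integrable (fun z : ℝ × E d =>
      (G + l / 2) * ‖u z.1 z.2‖ ^ 2 + (1 / (2 * l)) * ‖lapl ψ z.2‖ ^ 2) (stm T ω) :=
    (hu.sq.const_mul _).add (hi2.const_mul _)
  calc |∫ z, (inner ℝ (u z.1 z.2) (fderiv ℝ ψ z.2 (u z.1 z.2))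
          + inner ℝ (u z.1 z.2) (lapl ψ z.2)) ∂(stm T ω)|
      ≤ ∫ z, ((G + l / 2) * ‖u z.1 z.2‖ ^ 2 + (1 / (2 * l)) * ‖lapl ψ z.2‖ ^ 2) ∂(stm T ω) := by
        rw [← Real.norm_eq_abs]
        exact norm_integral_le_of_norm_le hbi (Eventually.of_forall hb)
    _ = (G + l / 2) * (∫ z, ‖u z.1 z.2‖ ^ 2 ∂(stm T ω))
        + (1 / (2 * l)) * (T * ∫ x in ω, ‖lapl ψ x‖ ^ 2) := by
        rw [integral_add (hu.sq.const_mul _) (hi2.const_mul _), integral_const_mul,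
          integral_const_mul, e2]
    _ ≤ (G + l / 2) * (∫ z, ‖u z.1 z.2‖ ^ 2 ∂(stm T ω)) + T * L ^ 2 / (2 * l) := by
        have : (1 / (2 * l)) * (T * ∫ x in ω, ‖lapl ψ x‖ ^ 2) ≤ (1 / (2 * l)) * (T * L ^ 2) := by
          apply mul_le_mul_of_nonneg_left _ (by positivity)
          exact mul_le_mul_of_nonneg_left hL hT.le
        have e3 : (1 / (2 * l)) * (T * L ^ 2) = T * L ^ 2 / (2 * l) := by ring
        linarith

/-- optimisation of the parameter -/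
theorem opt {m G A T L : ℝ} (hA : 0 ≤ A) (hT : 0 < T) (hL : 0 < L)
    (h : ∀ l, 0 < l → m ≤ (G + l / 2) * A + T * L ^ 2 / (2 * l)) : m ≤ G * A + L * Real.sqrt (T * A) := by
  rcases hA.eq_or_lt with rfl | hA
  · simp only [mul_zero, Real.sqrt_zero, add_zero]
    by_contra hm
    push Not at hm
    have h1 := h (T * L ^ 2 / m) (by positivity)
    rw [mul_zero, zero_add] at h1
    have h2 : T * L ^ 2 / (2 * (T * L ^ 2 / m)) = m / 2 := by field_simp
    rw [h2] at h1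
    linarith
  · set s := Real.sqrt (T * A) with hs
    have hs0 : 0 < s := Real.sqrt_pos.2 (by positivity)
    have hs2 : s ^ 2 = T * A := Real.sq_sqrt (by positivity)
    have h1 := h (L * s / A) (by positivity)
    have h2 : (G + L * s / A / 2) * A + T * L ^ 2 / (2 * (L * s / A)) = G * A + L * s := by
      have h3 : T * L ^ 2 / (2 * (L * s / A)) = L * s / 2 := by
        have h4 : T * L ^ 2 / (2 * (L * s / A)) = L * (T * A) / (2 * s) := by
          field_simp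
        rw [h4, ← hs2]
        field_simp
      rw [h3]
      field_simp
      ring
    linarith

theorem minbd {m G A T L : ℝ} (hA : 0 ≤ A) (hG : 0 < G) (hT : 0 < T) (hL : 0 < L) (hm : 0 ≤ m)
    (h : m ≤ G * A + L * Real.sqrt (T * A)) :
    min (m / (2 * G)) (m ^ 2 / (4 * L ^ 2 * T)) ≤ A := by
  by_contra hc
  push Not at hc
  obtain ⟨h1, h2⟩ := lt_min_iff.1 hc
  rw [lt_div_iff₀ (by positivity)] at h1 h2
  have h3 : L * Real.sqrt (T * A) < m / 2 := by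
    have h4 : (L * Real.sqrt (T * A)) ^ 2 < (m / 2) ^ 2 := by
      rw [mul_pow, Real.sq_sqrt (by positivity)]
      nlinarith
    exact lt_of_pow_lt_pow_left₀ 2 (by linarith) h4
  linarith

end Q176.TW
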